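import Mathlib

set_option autoImplicit false

namespace Pool.Agent.Results.MP_d05de0_co.Counter

open MvPolynomial

variable {p n : ℕ}

/-- `P` is a product of polynomials each of degree at most `d`. -/
def RankOne (d : ℕ) (P : MvPolynomial (Fin n) (ZMod p)) : Prop :=
  ∃ l : List (MvPolynomial (Fin n) (ZMod p)), (∀ f ∈ l, f.totalDegree ≤ d) ∧ l.prod = P

/-- `rk_d P ≤ k`. -/
def RkLe (d : ℕ) (P : MvPolynomial (Fin n) (ZMod p)) (k : ℕ) : Prop :=
  ∃ j ≤ k, ∃ Q : Fin j → MvPolynomial (Fin n) (ZMod p),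
    (∀ i, RankOne d (Q i) ∧ (Q i).totalDegree ≤ P.totalDegree) ∧ ∑ i, Q i = P

/-- `rk_{d,S} P ≤ k`. -/
def RkSLe (d : ℕ) (S : Set (ZMod p)) (P : MvPolynomial (Fin n) (ZMod p)) (k : ℕ) : Prop :=
  ∃ P₀ : MvPolynomial (Fin n) (ZMod p), P₀.totalDegree ≤ P.totalDegree ∧
    (∀ x : Fin n → ZMod p, (∀ i, x i ∈ S) → eval x P₀ = 0) ∧ RkLe d (P - P₀) k

abbrev R := MvPolynomial (Fin 3) (ZMod 3)

instance : Fact (Nat.Prime 3) := ⟨by norm_num⟩

lemma two (l : List R) (h : ∀ f ∈ l, f.totalDegree ≤ 1) (hd : l.prod.totalDegree ≤ 2) :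
    ∃ A B : R, A.totalDegree ≤ 1 ∧ B.totalDegree ≤ 1 ∧ l.prod = A * B := by
  induction l with
  | nil => exact ⟨1, 1, by simp, by simp, by simp⟩
  | cons f l ih =>
    rw [List.prod_cons] at hd ⊢
    by_cases z : f = 0 ∨ l.prod = 0
    · exact ⟨0, 0, by simp, by simp, by simpa using z⟩
    push Not at z
    rw [totalDegree_mul_of_isDomain z.1 z.2] at hd
    have hf := h f (by simp)
    by_cases e : f.totalDegree = 1
    · exact ⟨f, l.prod, hf, by omega, rfl⟩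
    · obtain ⟨A, B, a, b, q⟩ := ih (fun g hg => h g (by simp [hg])) (by omega)
      exact ⟨f * A, B, (totalDegree_mul f A).trans (by omega), b, by rw [q, mul_assoc]⟩

lemma aff (A : R) (h : A.totalDegree ≤ 1) :
    ∃ a b c d : ZMod 3, ∀ x : Fin 3 → ZMod 3, eval x A = a + b * x 0 + c * x 1 + d * x 2 := by
  have : ∀ s ∈ A.support, s 0 + s 1 + s 2 ≤ 1 := fun s hs => by
    have := (le_totalDegree hs).trans h
    rwa [Finsupp.sum_fintype _ _ fun _ => rfl, Fin.sum_univ_three] at this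
  simp only [eval_eq']
  generalize A.support = T at this
  induction T using Finset.induction_on with
  | empty => exact ⟨0, 0, 0, 0, by simp⟩
  | insert s T hs ih =>
    obtain ⟨a, b, c, d, e⟩ := ih fun t ht => this t (by simp [ht])
    have k := this s (by simp)
    simp only [Finset.sum_insert hs, e]
    simp only [Fin.prod_univ_three]
    obtain ⟨u, v, w⟩ | ⟨u, v, w⟩ | ⟨u, v, w⟩ | ⟨u, v, w⟩ : (s 0 = 0 ∧ s 1 = 0 ∧ s 2 = 0) ∨
      (s 0 = 1 ∧ s 1 = 0 ∧ s 2 = 0) ∨ (s 0 = 0 ∧ s 1 = 1 ∧ s 2 = 0) ∨ (s 0 = 0 ∧ s 1 = 0 ∧ s 2 = 1) := by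
      omega
    · exact ⟨a + coeff s A, b, c, d, fun x => by rw [u, v, w]; ring⟩
    · exact ⟨a, b + coeff s A, c, d, fun x => by rw [u, v, w]; ring⟩
    · exact ⟨a, b, c + coeff s A, d, fun x => by rw [u, v, w]; ring⟩
    · exact ⟨a, b, c, d + coeff s A, fun x => by rw [u, v, w]; ring⟩

/-- The selector `x₀ x₁ + (1 - x₀) x₂`. -/
noncomputable def sel : R := X 2 + X 0 * (X 1 - X 2)

lemma fin : ∀ a b c d a' b' c' d' k : ZMod 3, ∃ x ∈ ({0, 1} : Finset (ZMod 3)),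
    ∃ y ∈ ({0, 1} : Finset (ZMod 3)), ∃ z ∈ ({0, 1} : Finset (ZMod 3)),
    z + x * (y - z) - k ≠ (a + b * x + c * y + d * z) * (a' + b' * x + c' * y + d' * z) := by
  decide +kernel

lemma le2 : sel.totalDegree ≤ 2 := by
  refine (totalDegree_add _ _).trans (max_le (by simp) ((totalDegree_mul _ _).trans ?_))
  have := totalDegree_sub (X 1 : R) (X 2)
  simp at this ⊢; omega

lemma no (k : ZMod 3) (A B P₀ : R) (a : A.totalDegree ≤ 1) (b : B.totalDegree ≤ 1)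
    (h : ∀ x : Fin 3 → ZMod 3, (∀ i, x i ∈ ({0, 1} : Set (ZMod 3))) → eval x P₀ = 0) :
    A * B ≠ sel - C k - P₀ := fun e => by
  obtain ⟨a0, a1, a2, a3, ha⟩ := aff A a
  obtain ⟨b0, b1, b2, b3, hb⟩ := aff B b
  obtain ⟨x, hx, y, hy, z, hz, q⟩ := fin a0 a1 a2 a3 b0 b1 b2 b3 k
  have := congrArg (eval ![x, y, z]) e
  rw [map_mul, ha, hb, map_sub, h _ (by
    intro i; fin_cases i
    exacts [by simpa using hx, by simpa using hy, by simpa using hz])] at this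
  exact q (by simpa [sel] using this.symm)

theorem result : ∃ (p n : ℕ) (S : Set (ZMod p)) (P : MvPolynomial (Fin n) (ZMod p)),
    p.Prime ∧ 3 ≤ p ∧ S.Nonempty ∧ P.totalDegree = 2 ∧
    (fun x => eval x P) '' {x | ∀ i, x i ∈ S} ≠ Set.univ ∧
    ∀ c : ZMod p, ¬ RkSLe 1 S (P - C c) (p - 2) := by
  refine ⟨3, 3, {0, 1}, sel, by norm_num, le_rfl, by simp, le_antisymm le2 ?_, fun e => ?_, ?_⟩
  · by_contra h
    exact no 0 sel 1 0 (by omega) (by simp) (by simp) (by simp)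
  · obtain ⟨x, hx, q⟩ := e.ge (Set.mem_univ 2)
    simp only [sel, map_add, map_mul, map_sub, eval_X] at q
    rcases hx 0 with a | a <;> rcases hx 1 with b | b <;> rcases hx 2 with c | c <;>
      rw [a, b, c] at q <;> revert q <;> decide
  rintro c ⟨P₀, d, v, j, hj, Q, hQ, e⟩
  have d1 : (sel - C c).totalDegree ≤ 2 := (totalDegree_sub _ _).trans (by simp [le2])
  obtain rfl | rfl : j = 0 ∨ j = 1 := by omega
  · exact no c 0 0 P₀ (by simp) (by simp) v (by simpa using e)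
  · obtain ⟨⟨l, hl, q⟩, -⟩ := hQ 0
    rw [Fin.sum_univ_one, ← q] at e
    obtain ⟨A, B, a, b, r⟩ := two l hl (e ▸ (totalDegree_sub _ _).trans (max_le d1 (d.trans d1)))
    exact no c A B P₀ a b v (r ▸ e)

end Pool.Agent.Results.MP_d05de0_co.Counter
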